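import Pool.Agent.H28.BR.All

set_option autoImplicit false

/-!
# Central values of quadratic `L`-functions and additive characters

A bound for the exponential sum `∑ L(1/2, χ_D) e(θ |D|)` in terms of the rational approximations of `θ`, and its
consequences for EVERY irrational `α`: the first moment with weights `f(α |D|)`, `f` with an absolutely convergent
Fourier series, and positive central values in every arc modulo one.
-/

namespace Pool.Agent.H28.Keep.AdditiveTwistsEveryIrrational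

open Finset Filter Topology

noncomputable section

/-- `(D/2)` for a fundamental discriminant `D`: `1`, `-1`, `0` for `D ≡ 1`, `5` modulo `8`, `D` even -/
def kr2 (D : ℤ) : ℤ := if D % 8 = 1 then 1 else if D % 8 = 5 then -1 else 0

/-- the Kronecker symbol `(D/n)`, `n ≥ 1`, for a fundamental discriminant `D` -/
def kron (D : ℤ) (n : ℕ) : ℤ :=
  kr2 D ^ (n.factorization 2) * jacobiSym D (n / 2 ^ (n.factorization 2))

/-- fundamental discriminants (with `1`) -/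
def IsFund (D : ℤ) : Prop :=
  (D % 4 = 1 ∧ Squarefree D) ∨
    ∃ m : ℤ, D = 4 * m ∧ (m % 4 = 2 ∨ m % 4 = 3) ∧ Squarefree m

/-- `L(1/2, χ_D)`, the limit of the partial sums of `∑ (D/n) n^{-1/2}` -/
def LHalf (D : ℤ) : ℝ :=
  limUnder atTop (fun N : ℕ => ∑ n ∈ Icc 1 N, (kron D n : ℝ) / Real.sqrt n)

open Classical in
/-- `L(1/2, χ_D)` if `D = ε n` is a fundamental discriminant, and `0` otherwise -/
def central (ε : ℤ) (n : ℕ) : ℝ := if IsFund (ε * (n : ℤ)) then LHalf (ε * (n : ℤ)) else 0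

/-- `A_1(0) = ∏_p (1 - 1/(p(p+1)))` -/
def P1 : ℝ := ∏' p : Nat.Primes, (1 - 1 / (((p : ℕ) : ℝ) * (((p : ℕ) : ℝ) + 1)))

/-- `exp (2 π i x)` -/
def e (x : ℝ) : ℂ := Complex.exp (2 * Real.pi * x * Complex.I)

theorem keep :
    -- (0) the partial sums of the series of `L(1/2, χ_D)` converge
    (∀ D : ℤ, IsFund D → D ≠ 1 →
      Tendsto (fun N : ℕ => ∑ n ∈ Icc 1 N, (kron D n : ℝ) / Real.sqrt n) atTop (𝓝 (LHalf D))) ∧
    -- (1) the exponential sum
    (∀ κ : ℝ, 0 < κ → κ ≤ 1 / 8 → ∃ C : ℝ, 0 < C ∧ ∀ ε : ℤ, (ε = 1 ∨ ε = -1) →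
      ∀ (θ : ℝ) (b : ℤ) (q X : ℕ), 1 ≤ q → q ^ 2 ≤ X → IsCoprime b (q : ℤ) →
      |θ - (b : ℝ) / q| ≤ 1 / (q : ℝ) ^ 2 →
      ‖∑ n ∈ Ioc 1 X, (central ε n : ℂ) * e (θ * n)‖ ≤
        C * ((X : ℝ) * (1 + Real.log X) * (q : ℝ) ^ (κ - 1 / 2) +
          (X : ℝ) ^ (7 / 8 : ℝ) * (1 + Real.log X) ^ 2)) ∧
    -- (2) every irrational `α`, weights with an absolutely convergent Fourier series
    (∀ α : ℝ, Irrational α → ∀ ε : ℤ, (ε = 1 ∨ ε = -1) → ∀ c : ℤ → ℂ, Summable (fun h => ‖c h‖) →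
      Tendsto (fun X : ℕ => (∑ n ∈ Ioc 1 X, (central ε n : ℂ) * ∑' h : ℤ, c h * e (h * (α * n))) /
        ((X : ℂ) * Real.log X)) atTop (𝓝 (c 0 * (3 / Real.pi ^ 2 * (P1 / 2) : ℝ)))) ∧
    -- (3) every irrational `α`, positive central values in every arc
    (∀ α : ℝ, Irrational α → ∀ β v : ℝ, 0 < v → v ≤ 1 → ∃ c : ℝ, 0 < c ∧
      ∀ ε : ℤ, (ε = 1 ∨ ε = -1) → ∀ᶠ X : ℕ in atTop, c * X / Real.log X ≤
        (((Ioc 1 X).filter (fun n : ℕ => Int.fract (α * n + β) < v ∧ 0 < central ε n)).card : ℝ)) :=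
  ⟨Pool.Agent.Q122.FM.fdd.1, Pool.Agent.H28.BR.exp, Pool.Agent.H28.BR.wie, Pool.Agent.H28.BR.pos⟩

end

end Pool.Agent.H28.Keep.AdditiveTwistsEveryIrrational
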